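import Mathlib
import Pool.Agent.K4H34.AL.Comb2
import Pool.Agent.K4H74.ST.Exc

/-!
# Exact relations from the theorems on inductive invariants
-/

set_option autoImplicit false
set_option linter.unusedSectionVars false

namespace Pool.Agent.U645.ST

open NumberField Pool.Agent.K4H74 Pool.Agent.K4H74.ST Pool.Agent.K4H74.SK Pool.Agent.K4H77
  Pool.Agent.K4H34.AL

/-- `a` is one of the numbers `A(χ, φ)`. -/
def IsStarkNumber (c : Pair → ℂ) (x : Pair) (a : ℂ) : Prop :=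
  ∃ Λ : Y x.1 →ₗ[ℂ] Y x.1, IsStarkMap Λ ∧ IsA c Λ x.2 a

/-- `L(s, χ)^n` is a product of integral powers of the L-functions of pairs with the property `T`
(for the logarithms, `Re s > 1`), and the same product formula holds for the leading coefficients at
`s = 0`, for the defects of Stark's conjecture for all automorphisms `σ` of `ℂ`, and, up to an
algebraic factor, for the numbers `A(χ, φ)`. -/
def Related (c : Pair → ℂ) (T : Pair → Prop) (n : ℕ) (y : Pair) : Prop :=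
  ∃ (r : ℕ) (x : Fin r → Pair) (k : Fin r → ℤ), (∀ i, T (x i)) ∧
    (∀ s : ℂ, 1 < s.re → ∀ (l : ℂ) (l' : Fin r → ℂ), HasSum (logTerm y.2 s) l →
      (∀ i, HasSum (logTerm (x i).2 s) (l' i)) → n * l = ∑ i, k i * l' i) ∧
    c y ^ n = ∏ i, c (x i) ^ k i ∧
    (∀ (σ : ℂ ≃+* ℂ) (d : ℂˣ) (d' : Fin r → ℂˣ), IsDefect c σ y.2 d →
      (∀ i, IsDefect c σ (x i).2 (d' i)) → d ^ n = ∏ i, d' i ^ k i) ∧
    ∀ (a : ℂ) (a' : Fin r → ℂ), IsStarkNumber c y a → (∀ i, IsStarkNumber c (x i) (a' i)) →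
      ∃ α : ℂ, IsAlgebraic ℚ α ∧ a ^ n = α * ∏ i, a' i ^ k i

/-- the subgroup generated by the values at the pairs with the property `T` -/
def tsub {M : Type} [CommGroup M] (A : ArtinInvariant M) (T : Pair → Prop) : Subgroup M :=
  Subgroup.closure {y : M | ∃ x : Pair, T x ∧ y = pval A x}

/-- the invariant modulo the values at `T` -/
noncomputable def quo {M : Type} [CommGroup M] (A : ArtinInvariant M) (T : Pair → Prop) :
    ArtinInvariant (M ⧸ tsub A T) := mapInv (QuotientGroup.mk' (tsub A T)) A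

lemma quo_one {M : Type} [CommGroup M] (A : ArtinInvariant M) {T : Pair → Prop} {x : Pair}
    (hx : T x) : (quo A T).val x.1.K x.1.L x.2 = 1 :=
  (QuotientGroup.eq_one_iff (N := tsub A T) _).mpr (Subgroup.subset_closure ⟨x, hx, rfl⟩)

theorem form_of {M : Type} [CommGroup M] (A : ArtinInvariant M) (T : Pair → Prop) {y : Pair}
    {n : ℕ} (h : (quo A T).val y.1.K y.1.L y.2 ^ n = 1) :
    ∃ (r : ℕ) (x : Fin r → Pair) (k : Fin r → ℤ), (∀ i, T (x i)) ∧
      pval A y ^ n = ∏ i, pval A (x i) ^ k i := by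
  refine closure_form A T ?_
  have h6 : (quo A T).val y.1.K y.1.L y.2 = QuotientGroup.mk' (tsub A T) (pval A y) := rfl
  rw [h6, ← map_pow] at h
  exact (QuotientGroup.eq_one_iff _).mp h

/-- the relation for all the invariants -/
theorem related_of {c : Pair → ℂ} (hc : IsLeading c) {T : Pair → Prop}
    (hT : ∀ x, T x → IsChr x.2) {y : Pair} (hy : IsChr y.2) {n : ℕ}
    (h : (quo (allInv hc) T).val y.1.K y.1.L y.2 ^ n = 1) : Related c T n y := by
  obtain ⟨r, x, k, hx, h⟩ := form_of (allInv hc) T h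
  obtain ⟨r1, r2, r3, r4⟩ := all_rel hc h
  refine ⟨r, x, k, hx, fun s hs l l' hl hl' => log_rel r1 hs hl hl', ?_, ?_, ?_⟩
  · have h1 := congrArg (Units.val) r2
    rw [Units.val_pow_eq_pow_val, pval_lead hc hy, Units.coe_prod] at h1
    rw [h1]
    exact Finset.prod_congr rfl fun i _ => by
      rw [Units.val_zpow_eq_zpow_val, pval_lead hc (hT _ (hx i))]
  · intro σ d d' hd hd'
    have h1 := r3 σ
    rw [pval_defect hc σ hy hd] at h1
    rw [h1]
    exact Finset.prod_congr rfl fun i _ => by rw [pval_defect hc σ (hT _ (hx i)) (hd' i)]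
  · rintro a a' ⟨Λ, hΛ, ha⟩ ha'
    choose Λ' hΛ' ha' using ha'
    have ha0 : a ≠ 0 := isA_ne hc hy hΛ ha
    have ha0' : ∀ i, a' i ≠ 0 := fun i => isA_ne hc (hT _ (hx i)) (hΛ' i) (ha' i)
    have e1 : pval (algInv (leadInv hc)) y = (Units.mk0 a ha0 : ℂˣ) :=
      pval_alg hc hy hΛ ha
    have e2 : ∀ i, pval (algInv (leadInv hc)) (x i) = (Units.mk0 (a' i) (ha0' i) : ℂˣ) :=
      fun i => pval_alg hc (hT _ (hx i)) (hΛ' i) (ha' i)
    have h1 : ((Units.mk0 a ha0 ^ n : ℂˣ) : ℂˣ ⧸ algU)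
        = ((∏ i, Units.mk0 (a' i) (ha0' i) ^ k i : ℂˣ) : ℂˣ ⧸ algU) := by
      change (QuotientGroup.mk' algU) _ = (QuotientGroup.mk' algU) _
      rw [map_pow, map_prod]
      change ((Units.mk0 a ha0 : ℂˣ) : ℂˣ ⧸ algU) ^ n = _
      rw [← e1, r4]
      exact Finset.prod_congr rfl fun i _ => by rw [map_zpow, e2]; rfl
    rw [QuotientGroup.eq, mem_algU] at h1
    set P : ℂˣ := ∏ i, Units.mk0 (a' i) (ha0' i) ^ k i with hP
    refine ⟨((P⁻¹ * Units.mk0 a ha0 ^ n : ℂˣ) : ℂ), ?_, ?_⟩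
    · have h2 : P⁻¹ * Units.mk0 a ha0 ^ n = ((Units.mk0 a ha0 ^ n)⁻¹ * P)⁻¹ := by
        rw [mul_inv_rev, inv_inv]
      rw [h2, Units.val_inv_eq_inv_val]
      exact h1.inv
    · have h2 : ∏ i, a' i ^ k i = (P : ℂ) := by
        rw [hP, Units.coe_prod]
        exact Finset.prod_congr rfl fun i _ => by
          rw [Units.val_zpow_eq_zpow_val, Units.val_mk0]
      rw [h2, ← Units.val_mul, mul_comm, mul_inv_cancel_left, Units.val_pow_eq_pow_val,
        Units.val_mk0]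

lemma exists_starkNumber {c : Pair → ℂ} (hc : IsLeading c) {x : Pair} (hx : IsChr x.2) :
    ∃ a, IsStarkNumber c x a := by
  have h' := isChr_iff.mp hx
  obtain ⟨φ⟩ := SC.exists_StarkMap (L := x.1.L) x.1.K
  obtain ⟨a, ha⟩ := SC.IsA.exists (leadInv hc) φ h'
  obtain ⟨Λ, hΛ, hφ⟩ := exists_new φ
  exact ⟨a, Λ, hΛ, isA_new hc hφ h' ha⟩

/-- consequences for the algebraicity -/
theorem Related.algebraic {c : Pair → ℂ} (hc : IsLeading c) {T : Pair → Prop}
    (hT : ∀ x, T x → IsChr x.2) {y : Pair} {n : ℕ} (hn : 0 < n) (h : Related c T n y)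
    (hb : ∀ x, T x → ∀ a, IsStarkNumber c x a → IsAlgebraic ℚ a) {a : ℂ}
    (ha : IsStarkNumber c y a) : IsAlgebraic ℚ a := by
  obtain ⟨r, x, k, hx, -, -, -, h⟩ := h
  choose a' ha' using fun i => exists_starkNumber hc (hT _ (hx i))
  obtain ⟨α, hα, h1⟩ := h a a' ha ha'
  refine IsAlgebraic.of_pow hn ?_
  rw [h1, ← mem_QB]
  exact mul_mem (mem_QB.mpr hα) (prod_mem fun i _ =>
    zpow_mem (mem_QB.mpr (hb _ (hx i) _ (ha' i))) _)

/-- consequences for the defects -/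
theorem Related.defect {c : Pair → ℂ} {T : Pair → Prop} {y : Pair} {n : ℕ}
    (h : Related c T n y) {σ : ℂ ≃+* ℂ}
    (hb : ∀ x, T x → Stark c σ x.2) {d : ℂˣ} (hd : IsDefect c σ y.2 d) : d ^ n = 1 := by
  obtain ⟨r, x, k, hx, -, -, h, -⟩ := h
  rw [h σ d (fun _ => 1) hd (fun i => isDefect_one_iff.mpr (hb _ (hx i)))]
  simp

/-- Stark's conjecture from a relation with `n = 1` -/
theorem Related.stark {c : Pair → ℂ} (hc : IsLeading c) {T : Pair → Prop} {y : Pair}
    (hy : IsChr y.2) (h : Related c T 1 y) {σ : ℂ ≃+* ℂ} (hb : ∀ x, T x → Stark c σ x.2) :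
    Stark c σ y.2 := by
  obtain ⟨d, hd, -⟩ := existsUnique_defect hc σ hy
  have h1 := h.defect hb hd
  rw [pow_one] at h1
  rw [h1] at hd
  exact isDefect_one_iff.mp hd

/-- Stark's conjecture up to sign from a relation with `n = 2` -/
theorem Related.starkSign {c : Pair → ℂ} (hc : IsLeading c) {T : Pair → Prop} {y : Pair}
    (hy : IsChr y.2) (h : Related c T 2 y) {σ : ℂ ≃+* ℂ} (hb : ∀ x, T x → Stark c σ x.2) :
    StarkSign c σ y.2 := by
  obtain ⟨d, hd, -⟩ := existsUnique_defect hc σ hy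
  have h1 := h.defect hb hd
  have h2 : ((d : ℂ)) ^ 2 = 1 := by
    rw [← Units.val_pow_eq_pow_val, h1, Units.val_one]
  intro Λ hΛ a a' ha ha'
  have h3 := hd Λ hΛ a a' ha ha'
  rcases sq_eq_one_iff.mp h2 with h4 | h4
  · left; rw [h3, h4, one_mul]
  · right; rw [h3, h4, neg_one_mul]

end Pool.Agent.U645.ST
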